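import Pool.Agent.H87.PFin.Key

namespace Pool.Agent.H87.PFinAlg

open Set PFin

/-- A type of cardinality `ℵ₁` carries a well-order with countable initial segments. -/
theorem exists_order {Ω : Type} (hΩ : Cardinal.mk Ω = Cardinal.aleph 1) :
    ∃ _ : LinearOrder Ω, WellFoundedLT Ω ∧ ∀ a : Ω, (Iio a).Countable := by
  have h1 : Cardinal.mk Ω = Cardinal.mk (Cardinal.aleph 1).ord.ToType := by
    rw [Cardinal.mk_ord_toType, hΩ]
  obtain ⟨f⟩ := Cardinal.eq.1 h1
  let _ : LinearOrder Ω := LinearOrder.lift' f f.injective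
  refine ⟨inferInstance, ⟨?_⟩, ?_⟩
  · exact InvImage.wf f (wellFounded_lt (α := (Cardinal.aleph 1).ord.ToType))
  · intro a
    have h2 : (Iio (f a)).Countable := by
      rw [← Set.countable_coe_iff, ← Cardinal.mk_le_aleph0_iff, ← Order.lt_succ_iff,
        Cardinal.succ_aleph0]
      exact Cardinal.mk_Iio_toType_ord_lt (f a)
    refine (h2.preimage f.injective).mono ?_
    intro b hb
    exact hb

theorem not_countable_univ {Ω : Type} (hΩ : Cardinal.mk Ω = Cardinal.aleph 1) :
    ¬ (univ : Set Ω).Countable := by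
  intro h
  rw [Set.countable_univ_iff, ← Cardinal.mk_le_aleph0_iff, hΩ] at h
  exact absurd h (not_le.2 Cardinal.aleph0_lt_aleph_one)

variable {Ω : Type}

/-- The Cantor space. -/
abbrev Cantor : Type := ℕ → Bool

open Classical in
/-- The coordinate map transported by `π`. -/
noncomputable def hat (π : PFin Ω ≃o PFin Ω) (x : Ω → Cantor) (ξ : Ω) : Cantor :=
  fun n => decide (ξ ∈ lft π {η | x η n = true})

theorem ctEq_hat {π : PFin Ω ≃o PFin Ω} (hπ : CtblPres π) (x : Ω → Cantor)
    {H : Set Cantor} (hH : MeasurableSet H) :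
    CtEq (lft π (x ⁻¹' H)) (hat π x ⁻¹' H) := by
  let m' : MeasurableSpace Cantor :=
    { MeasurableSet' := fun H => CtEq (lft π (x ⁻¹' H)) (hat π x ⁻¹' H)
      measurableSet_empty := by
        apply ctEq_of_mk_eq
        rw [mk_lft]
        simp only [preimage_empty]
        rw [← bot_eq]
        exact map_bot π
      measurableSet_compl := by
        intro H hH
        rw [preimage_compl, preimage_compl]
        exact (ctEq_lft_compl π _).trans hH.compl
      measurableSet_iUnion := by
        intro H hH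
        rw [preimage_iUnion, preimage_iUnion]
        exact (ctEq_lft_iUnion hπ _).trans (CtEq.iUnion hH) }
  have h1 : (MeasurableSpace.pi : MeasurableSpace Cantor) ≤ m' := by
    refine iSup_le fun n => ?_
    rintro _ ⟨s, _, rfl⟩
    show CtEq (lft π (x ⁻¹' ((fun y : Cantor => y n) ⁻¹' s)))
      (hat π x ⁻¹' ((fun y : Cantor => y n) ⁻¹' s))
    have ht : CtEq (lft π (x ⁻¹' ((fun y : Cantor => y n) ⁻¹' {true})))
        (hat π x ⁻¹' ((fun y : Cantor => y n) ⁻¹' {true})) := by
      have : hat π x ⁻¹' ((fun y : Cantor => y n) ⁻¹' {true}) = lft π {η | x η n = true} := by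
        ext ξ
        simp [hat]
      rw [this]
      exact CtEq.refl _
    have hf : CtEq (lft π (x ⁻¹' ((fun y : Cantor => y n) ⁻¹' {false})))
        (hat π x ⁻¹' ((fun y : Cantor => y n) ⁻¹' {false})) := by
      have h2 : ({false} : Set Bool) = {true}ᶜ := by ext b; cases b <;> simp
      rw [h2]
      simp only [preimage_compl]
      exact (ctEq_lft_compl π _).trans ht.compl
    have h3 : s = ∅ ∨ s = {true} ∨ s = {false} ∨ s = univ := by
      by_cases h4 : true ∈ s <;> by_cases h5 : false ∈ s
      · right; right; right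
        ext b; cases b <;> simp_all
      · right; left
        ext b; cases b <;> simp_all
      · right; right; left
        ext b; cases b <;> simp_all
      · left
        ext b; cases b <;> simp_all
    rcases h3 with rfl | rfl | rfl | rfl
    · exact m'.measurableSet_empty
    · exact ht
    · exact hf
    · have h6 := m'.measurableSet_compl _ m'.measurableSet_empty
      rw [compl_empty] at h6
      exact h6
  exact h1 _ hH

/-- If all subsets of `range x ∪ range (hat π x)` are relatively Borel, then `π` is induced by a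
point map modulo countable sets. -/
theorem exists_pointMap [Nonempty Ω] {π : PFin Ω ≃o PFin Ω} (hπ : CtblPres π) {x : Ω → Cantor}
    (hx : Function.Injective x)
    (hX : ∀ Y ⊆ range x ∪ range (hat π x), ∃ H : Set Cantor, MeasurableSet H ∧
      H ∩ (range x ∪ range (hat π x)) = Y) :
    ∃ e : Ω → Ω, ∀ A : Set Ω, CtEq (lft π A) (e ⁻¹' A) := by
  have key : ∀ A : Set Ω, CtEq (lft π A) {ξ | hat π x ξ ∈ x '' A} := by
    intro A
    obtain ⟨H, hH, hHA⟩ := hX (x '' A) (by
      rintro _ ⟨a, _, rfl⟩; exact Or.inl ⟨a, rfl⟩)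
    have h1 : x ⁻¹' H = A := by
      ext η
      constructor
      · intro hη
        have : x η ∈ x '' A := by rw [← hHA]; exact ⟨hη, Or.inl ⟨η, rfl⟩⟩
        obtain ⟨a, ha, h2⟩ := this
        rwa [← hx h2]
      · intro hη
        have : x η ∈ H ∩ (range x ∪ range (hat π x)) := by rw [hHA]; exact ⟨η, hη, rfl⟩
        exact this.1
    have h2 : hat π x ⁻¹' H = {ξ | hat π x ξ ∈ x '' A} := by
      ext ξ
      constructor
      · intro hξ
        show hat π x ξ ∈ x '' A
        rw [← hHA]
        exact ⟨hξ, Or.inr ⟨ξ, rfl⟩⟩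
      · intro hξ
        have : hat π x ξ ∈ H ∩ (range x ∪ range (hat π x)) := by rw [hHA]; exact hξ
        exact this.1
    rw [← h2]
    conv_lhs => rw [← h1]
    exact ctEq_hat hπ x hH
  -- almost all values of `hat` are values of `x`
  have hN : {ξ | hat π x ξ ∉ range x}.Countable := by
    have h1 := (key univ)
    have h2 : CtEq (lft π (univ : Set Ω)) univ := by
      apply ctEq_of_mk_eq
      rw [mk_lft, ← top_eq]
      exact map_top π
    have h3 := (h2.symm.trans h1).1
    refine h3.mono ?_
    intro ξ hξ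
    refine ⟨trivial, ?_⟩
    intro h4
    apply hξ
    rw [← image_univ]
    exact h4
  classical
  let e : Ω → Ω := fun ξ => if h : hat π x ξ ∈ range x then h.choose else Classical.arbitrary Ω
  have he : ∀ ξ, hat π x ξ ∈ range x → x (e ξ) = hat π x ξ := by
    intro ξ h
    simp only [e, dif_pos h]
    exact h.choose_spec
  refine ⟨e, fun A => (key A).trans ⟨hN.mono ?_, hN.mono ?_⟩⟩
  · rintro ξ ⟨⟨a, ha, h1⟩, h2⟩ h3
    apply h2
    have h4 := he ξ h3
    rw [← h1] at h4
    rw [mem_preimage, hx h4]
    exact ha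
  · rintro ξ ⟨h1, h2⟩ h3
    exact h2 ⟨e ξ, h1, he ξ h3⟩

/-- Main theorem in Cantor space: if all subsets of all sets of size `ℵ₁` are relatively
Borel, then cardinality-preserving automorphisms have nontrivial fixed points. -/
theorem exists_fixed_of_cantor (hΩ : Cardinal.mk Ω = Cardinal.aleph 1)
    (hX : ∀ X : Set Cantor, Cardinal.mk X = Cardinal.aleph 1 → ∀ Y ⊆ X,
      ∃ H : Set Cantor, MeasurableSet H ∧ H ∩ X = Y)
    (π : PFin Ω ≃o PFin Ω) (hπ : CtblPres π) : ¬ NoNontrivialFixedPoint π := by
  obtain ⟨_, hwf, hc⟩ := exists_order hΩ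
  have hu := not_countable_univ hΩ
  have hne : Nonempty Ω := by
    rw [← Cardinal.mk_ne_zero_iff, hΩ]
    exact (Cardinal.aleph_pos 1).ne'
  -- an injection into Cantor space
  have h1 : Cardinal.mk Ω ≤ Cardinal.mk Cantor := by
    rw [hΩ]
    have h2 : Cardinal.mk Cantor = Cardinal.continuum := by simp [Cantor]
    rw [h2]
    exact Cardinal.aleph_one_le_continuum
  obtain ⟨x, hx⟩ := h1
  have hcard : ∀ π : PFin Ω ≃o PFin Ω,
      Cardinal.mk (range x ∪ range (hat π x) : Set Cantor) = Cardinal.aleph 1 := by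
    intro π
    apply le_antisymm
    · refine (Cardinal.mk_union_le _ _).trans ?_
      have h3 : Cardinal.mk (range x) ≤ Cardinal.aleph 1 := Cardinal.mk_range_le.trans hΩ.le
      have h4 : Cardinal.mk (range (hat π x)) ≤ Cardinal.aleph 1 :=
        Cardinal.mk_range_le.trans hΩ.le
      refine (add_le_add h3 h4).trans ?_
      rw [Cardinal.add_eq_self (Cardinal.aleph0_le_aleph 1)]
    · rw [← hΩ, ← Cardinal.mk_range_eq x hx]
      exact Cardinal.mk_le_mk_of_subset subset_union_left
  obtain ⟨e, he⟩ := exists_pointMap hπ hx (hX _ (hcard π))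
  obtain ⟨e', he'⟩ := exists_pointMap hπ.symm hx (hX _ (hcard π.symm))
  exact exists_fixed hc hu hπ e he e' he'

/-- A continuous injection of Cantor space into the reals. -/
theorem exists_embedding : ∃ f : Cantor → ℝ, Continuous f ∧ Function.Injective f := by
  obtain ⟨f, _, h2, h3⟩ := IsClosed.exists_nat_bool_injection_of_not_countable
    (α := ℝ) isClosed_univ (by
      rw [Set.countable_univ_iff]
      exact not_countable)
  exact ⟨f, h2, h3⟩

end Pool.Agent.H87.PFinAlg
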