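import Mathlib

/-!
The Boolean algebra of all subsets of a type modulo the ideal of finite subsets.
-/

namespace Pool.Agent.H87.PFinAlg

/-- Equality of subsets of `Ω` modulo finite sets. -/
def finSetoid (Ω : Type) : Setoid (Set Ω) where
  r A B := (A \ B).Finite ∧ (B \ A).Finite
  iseqv :=
    { refl := fun A => by simp
      symm := fun h => ⟨h.2, h.1⟩
      trans := fun {A B C} h1 h2 =>
        ⟨(h1.1.union h2.1).subset (by intro x hx; simp at hx ⊢; tauto),
          (h1.2.union h2.2).subset (by intro x hx; simp at hx ⊢; tauto)⟩ }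

/-- The Boolean algebra `P(Ω)/Fin`: subsets of `Ω` modulo finite subsets. -/
def PFin (Ω : Type) : Type := Quotient (finSetoid Ω)

namespace PFin

variable {Ω : Type}

/-- The class of a subset of `Ω` in `P(Ω)/Fin`. -/
def mk (A : Set Ω) : PFin Ω := Quotient.mk (finSetoid Ω) A

theorem mk_eq_mk {A B : Set Ω} : mk A = mk B ↔ (A \ B).Finite ∧ (B \ A).Finite :=
  ⟨fun h => Quotient.exact (s := finSetoid Ω) h, fun h => Quotient.sound (s := finSetoid Ω) h⟩

theorem ind {p : PFin Ω → Prop} (h : ∀ A, p (mk A)) (a : PFin Ω) : p a :=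
  Quotient.ind (s := finSetoid Ω) h a

/-- The order of `P(Ω)/Fin`: inclusion modulo finite sets. -/
def leAux : PFin Ω → PFin Ω → Prop :=
  Quotient.lift₂ (fun A B => (A \ B).Finite) (by
    rintro A B A' B' ⟨h1, h2⟩ ⟨h3, h4⟩
    apply propext
    constructor
    · intro h
      exact ((h.union h2).union h3).subset (by intro x hx; simp at hx ⊢; tauto)
    · intro h
      exact ((h.union h1).union h4).subset (by intro x hx; simp at hx ⊢; tauto))

/-- The join of `P(Ω)/Fin`: induced by union. -/
def supAux : PFin Ω → PFin Ω → PFin Ω :=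
  Quotient.map₂ (· ∪ ·) (by
    rintro A A' ⟨h1, h2⟩ B B' ⟨h3, h4⟩
    exact ⟨(h1.union h3).subset (by intro x hx; simp at hx ⊢; tauto),
      (h2.union h4).subset (by intro x hx; simp at hx ⊢; tauto)⟩)

/-- The meet of `P(Ω)/Fin`: induced by intersection. -/
def infAux : PFin Ω → PFin Ω → PFin Ω :=
  Quotient.map₂ (· ∩ ·) (by
    rintro A A' ⟨h1, h2⟩ B B' ⟨h3, h4⟩
    exact ⟨(h1.union h3).subset (by intro x hx; simp at hx ⊢; tauto),
      (h2.union h4).subset (by intro x hx; simp at hx ⊢; tauto)⟩)

/-- The complement of `P(Ω)/Fin`: induced by complement. -/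
def complAux : PFin Ω → PFin Ω :=
  Quotient.map (fun A => Aᶜ) (by
    rintro A A' ⟨h1, h2⟩
    exact ⟨h2.subset (by intro x hx; simp at hx ⊢; tauto),
      h1.subset (by intro x hx; simp at hx ⊢; tauto)⟩)

/-- `P(Ω)/Fin` is a Boolean algebra, with the order and the operations induced by those of
`P(Ω)`. -/
instance : BooleanAlgebra (PFin Ω) where
  le := leAux
  sup := supAux
  inf := infAux
  compl := complAux
  bot := mk ∅
  top := mk Set.univ
  le_refl := ind fun A => by
    show (A \ A).Finite
    simp
  le_trans := ind fun A => ind fun B => ind fun C => by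
    show (A \ B).Finite → (B \ C).Finite → (A \ C).Finite
    intro h1 h2
    exact (h1.union h2).subset (by intro x hx; simp at hx ⊢; tauto)
  le_antisymm := ind fun A => ind fun B => by
    show (A \ B).Finite → (B \ A).Finite → mk A = mk B
    exact fun h1 h2 => mk_eq_mk.2 ⟨h1, h2⟩
  le_sup_left := ind fun A => ind fun B => by
    show (A \ (A ∪ B)).Finite
    refine Set.finite_empty.subset ?_
    intro x hx; simp at hx; tauto
  le_sup_right := ind fun A => ind fun B => by
    show (B \ (A ∪ B)).Finite
    refine Set.finite_empty.subset ?_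
    intro x hx; simp at hx; tauto
  sup_le := ind fun A => ind fun B => ind fun C => by
    show (A \ C).Finite → (B \ C).Finite → ((A ∪ B) \ C).Finite
    intro h1 h2
    exact (h1.union h2).subset (by intro x hx; simp at hx ⊢; tauto)
  inf_le_left := ind fun A => ind fun B => by
    show ((A ∩ B) \ A).Finite
    refine Set.finite_empty.subset ?_
    intro x hx; simp at hx; tauto
  inf_le_right := ind fun A => ind fun B => by
    show ((A ∩ B) \ B).Finite
    refine Set.finite_empty.subset ?_
    intro x hx; simp at hx; tauto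
  le_inf := ind fun A => ind fun B => ind fun C => by
    show (A \ B).Finite → (A \ C).Finite → (A \ (B ∩ C)).Finite
    intro h1 h2
    exact (h1.union h2).subset (by intro x hx; simp at hx ⊢; tauto)
  le_sup_inf := ind fun A => ind fun B => ind fun C => by
    show (((A ∪ B) ∩ (A ∪ C)) \ (A ∪ (B ∩ C))).Finite
    rw [Set.union_inter_distrib_left, Set.sdiff_self]
    exact Set.finite_empty
  inf_compl_le_bot := ind fun A => by
    show ((A ∩ Aᶜ) \ ∅).Finite
    simp
  top_le_sup_compl := ind fun A => by
    show (Set.univ \ (A ∪ Aᶜ)).Finite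
    simp
  le_top := ind fun A => by
    show (A \ Set.univ).Finite
    simp
  bot_le := ind fun A => by
    show (∅ \ A).Finite
    simp

theorem mk_le_mk {A B : Set Ω} : mk A ≤ mk B ↔ (A \ B).Finite := Iff.rfl
theorem mk_sup (A B : Set Ω) : mk A ⊔ mk B = mk (A ∪ B) := rfl
theorem mk_inf (A B : Set Ω) : mk A ⊓ mk B = mk (A ∩ B) := rfl
theorem mk_compl (A : Set Ω) : (mk A)ᶜ = mk Aᶜ := rfl
theorem bot_eq : (⊥ : PFin Ω) = mk ∅ := rfl
theorem top_eq : (⊤ : PFin Ω) = mk Set.univ := rfl

end PFin

/-- The automorphism `π` of `P(Ω)/Fin` has no nontrivial fixed point: a class `[A]` fixed by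
`π` has `A` finite or `Ω \ A` finite. -/
def NoNontrivialFixedPoint {Ω : Type} (π : PFin Ω ≃o PFin Ω) : Prop :=
  ∀ A : Set Ω, π (PFin.mk A) = PFin.mk A → A.Finite ∨ Aᶜ.Finite

/-- The automorphism `π` of `P(Ω)/Fin` is cardinality-preserving: if `A`, `B` are infinite
and `π [A] = [B]`, then `A` and `B` have the same cardinality. -/
def CardinalityPreserving {Ω : Type} (π : PFin Ω ≃o PFin Ω) : Prop :=
  ∀ A B : Set Ω, A.Infinite → B.Infinite → π (PFin.mk A) = PFin.mk B →
    Cardinal.mk A = Cardinal.mk B

end Pool.Agent.H87.PFinAlg
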