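import Pool.Agent.H87.PFin.Lift

namespace Pool.Agent.H87.PFinAlg

open Set PFin

section Order

variable {Ω : Type} [LinearOrder Ω]

/-- In an order whose initial segments are countable and which is uncountable, countable sets
are strictly bounded. -/
theorem exists_bound (hc : ∀ a : Ω, (Iio a).Countable) (hu : ¬ (univ : Set Ω).Countable)
    {A : Set Ω} (hA : A.Countable) : ∃ γ, A ⊆ Iio γ := by
  by_contra hcon
  push Not at hcon
  apply hu
  have h1 : (⋃ a ∈ A, Iic a).Countable := by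
    refine hA.biUnion fun a _ => ?_
    rw [← Iio_insert]
    exact (hc a).insert a
  refine h1.mono ?_
  intro γ _
  have := hcon γ
  rw [not_subset] at this
  obtain ⟨a, ha, h2⟩ := this
  simp only [mem_Iio, not_lt] at h2
  simp only [mem_iUnion, mem_Iic]
  exact ⟨a, ha, h2⟩

/-- The set of closure points of a function is unbounded. -/
theorem exists_closed [WellFoundedLT Ω] (hc : ∀ a : Ω, (Iio a).Countable) (hu : ¬ (univ : Set Ω).Countable)
    (g : Ω → Ω) (α : Ω) : ∃ δ, α < δ ∧ ∀ β < δ, g β < δ := by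
  have hstep : ∀ a : Ω, ∃ b, a < b ∧ ∀ c ≤ a, g c < b := by
    intro a
    obtain ⟨b, hb⟩ := exists_bound hc hu (A := insert a (g '' Iic a)) (by
      refine Set.Countable.insert a (Set.Countable.image ?_ _)
      rw [← Iio_insert]
      exact (hc a).insert a)
    exact ⟨b, hb (mem_insert _ _), fun c hc' => hb (mem_insert_of_mem _ ⟨c, hc', rfl⟩)⟩
  choose h h1 h2 using hstep
  let s : ℕ → Ω := fun n => h^[n] α
  have hs : ∀ n, s (n + 1) = h (s n) := fun n => Function.iterate_succ_apply' h n α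
  obtain ⟨γ, hγ⟩ := exists_bound hc hu (A := range s) (countable_range s)
  have hne : {x : Ω | ∀ n, s n < x}.Nonempty := ⟨γ, fun n => hγ ⟨n, rfl⟩⟩
  refine ⟨WellFounded.min wellFounded_lt _ hne, ?_, ?_⟩
  · exact WellFounded.min_mem wellFounded_lt _ hne 0
  · intro β hβ
    have h3 : ¬ ∀ n, s n < β := fun h4 =>
      WellFounded.not_lt_min wellFounded_lt {x : Ω | ∀ n, s n < x} (x := β) h4 hβ
    push Not at h3
    obtain ⟨n, hn⟩ := h3
    have h4 : g β < s (n + 1) := by rw [hs]; exact h2 _ _ hn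
    exact h4.trans (WellFounded.min_mem wellFounded_lt _ hne (n + 1))

variable (π : PFin Ω ≃o PFin Ω)

/-- `D δ`: the part of the initial segment of `δ` missed by its image. -/
noncomputable def Dset (δ : Ω) : Set Ω := Iio δ \ lft π (Iio δ)

/-- `F δ`: the preimage of `D δ`, above `δ`. -/
noncomputable def Fset (δ : Ω) : Set Ω := lft π.symm (Dset π δ) \ Iio δ

theorem mk_Fset (δ : Ω) : π (mk (Fset π δ)) = mk (Dset π δ) := by
  have h1 : mk (Fset π δ) = mk (lft π.symm (Dset π δ)) := by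
    rw [mk_eq_mk]
    constructor
    · refine Set.finite_empty.subset ?_
      intro x hx
      simp only [Fset, mem_sdiff] at hx
      exact absurd hx.1.1 hx.2
    · have h2 : (Dset π δ ∩ lft π (Iio δ)).Finite := by
        refine Set.finite_empty.subset ?_
        intro x hx
        exact absurd hx.2 hx.1.2
      have h3 := (lft_inter_finite π.symm).2 h2
      rw [← mk_eq_bot, ← mk_inf, mk_lft_symm_lft, mk_inf, mk_eq_bot] at h3
      refine h3.subset ?_
      intro x hx
      simp only [Fset, mem_sdiff, not_and, not_not] at hx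
      exact ⟨hx.1, hx.2 hx.1⟩
  rw [h1, mk_lft, OrderIso.apply_symm_apply]

/-- The closure conditions used below. -/
structure ClosedAt (e : Ω → Ω) (δ : Ω) : Prop where
  e_lt : ∀ β < δ, e β < δ
  F_sub : ∀ β < δ, Fset π β ⊆ Iio δ
  bdd : ∀ β < δ, (Iio β \ lft π (Iio δ)).Finite

variable {π}

theorem exists_g (hc : ∀ a : Ω, (Iio a).Countable) (hu : ¬ (univ : Set Ω).Countable)
    (hπ : CtblPres π) (e : Ω → Ω) :
    ∃ g : Ω → Ω, ∀ δ, (∀ β < δ, g β < δ) → ClosedAt π e δ := by
  have h1 : ∀ β : Ω, ∃ γ, insert (e β) (Fset π β ∪ lft π.symm (Iio β)) ⊆ Iio γ := by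
    intro β
    apply exists_bound hc hu
    refine Set.Countable.insert _ (Set.Countable.union ?_ ?_)
    · have : (Dset π β).Countable := (hc β).mono sdiff_subset
      exact ((hπ.symm _).2 this).mono sdiff_subset
    · exact (hπ.symm _).2 (hc β)
  choose g hg using h1
  refine ⟨g, fun δ hδ => ⟨?_, ?_, ?_⟩⟩
  · intro β hβ
    exact lt_trans (hg β (mem_insert _ _)) (hδ β hβ)
  · intro β hβ x hx
    exact lt_trans (hg β (mem_insert_of_mem _ (Or.inl hx))) (hδ β hβ)
  · intro β hβ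
    rw [← mk_le_mk, mk_lft, ← π.symm_apply_le, ← mk_lft, mk_le_mk]
    refine Set.finite_empty.subset ?_
    intro x hx
    exact hx.2 (lt_trans (hg β (mem_insert_of_mem _ (Or.inr hx.1))) (hδ β hβ))

/-- The diagonal argument: if `π` is induced by `e` modulo countable sets, then `D δ` is
finite for all but countably many closure points `δ`. -/
theorem countable_bad [WellFoundedLT Ω] (hc : ∀ a : Ω, (Iio a).Countable) (hu : ¬ (univ : Set Ω).Countable)
    (e : Ω → Ω) (he : ∀ A : Set Ω, CtEq (lft π A) (e ⁻¹' A)) :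
    ∃ γ : Ω, ∀ δ, γ < δ → ClosedAt π e δ → (Dset π δ).Finite := by
  -- bad points
  let S : Set Ω := {δ | ClosedAt π e δ ∧ (Dset π δ).Infinite}
  -- the diagonal set
  obtain ⟨T, hT⟩ : ∃ T : Set Ω, ∀ δ, δ ∈ T ↔
      δ ∈ S ∧ {ξ ∈ Dset π δ | ∃ δ' < δ, δ' ∈ T ∧ e ξ ∈ Fset π δ'}.Finite := by
    let T : Ω → Prop := wellFounded_lt.fix (fun δ ih =>
      δ ∈ S ∧ {ξ ∈ Dset π δ | ∃ δ', ∃ h : δ' < δ, ih δ' h ∧ e ξ ∈ Fset π δ'}.Finite)
    refine ⟨{δ | T δ}, fun δ => ?_⟩
    show T δ ↔ _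
    rw [show T δ = (δ ∈ S ∧ {ξ ∈ Dset π δ | ∃ δ', ∃ _ : δ' < δ, T δ' ∧
      e ξ ∈ Fset π δ'}.Finite) from WellFounded.fix_eq _ _ _]
    simp only [exists_prop]
    rfl
  have hTS : T ⊆ S := fun δ hδ => ((hT δ).1 hδ).1
  let FT : Set Ω := ⋃ δ ∈ T, Fset π δ
  -- the exceptional countable set is bounded
  obtain ⟨γ, hγ⟩ := exists_bound hc hu ((he FT).1.union (he FT).2)
  refine ⟨γ, fun δ hδ hcl => ?_⟩
  by_contra hinf
  have hδS : δ ∈ S := ⟨hcl, hinf⟩
  -- `D δ` meets the exceptional set in a finite set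
  have hDγ : (Dset π δ ∩ Iio γ).Finite := by
    refine (hcl.bdd γ hδ).subset ?_
    intro x hx
    exact ⟨hx.2, hx.1.2⟩
  -- description of the trace of the preimage on `D δ`
  have htrace : {ξ ∈ Dset π δ | ∃ δ' < δ, δ' ∈ T ∧ e ξ ∈ Fset π δ'} =
      {ξ ∈ Dset π δ | e ξ ∈ FT} := by
    ext ξ
    simp only [mem_ofPred_eq, FT, mem_iUnion, exists_prop]
    constructor
    · rintro ⟨h1, δ', _, h3, h4⟩
      exact ⟨h1, δ', h3, h4⟩
    · rintro ⟨h1, δ', h3, h4⟩
      refine ⟨h1, δ', ?_, h3, h4⟩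
      have h5 : e ξ < δ := hcl.e_lt ξ h1.1
      have h6 : δ' ≤ e ξ := by
        have := h4.2
        simpa using this
      exact lt_of_le_of_lt h6 h5
  by_cases hδT : δ ∈ T
  · have hfin := ((hT δ).1 hδT).2
    rw [htrace] at hfin
    -- `D δ` is almost contained in the image of `FT`
    have h1 : (Dset π δ \ lft π FT).Finite := by
      rw [← mk_le_mk, ← mk_Fset, mk_lft, π.le_iff_le, mk_le_mk]
      refine Set.finite_empty.subset ?_
      intro x hx
      exact hx.2 (mem_biUnion hδT hx.1)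
    apply hinf
    refine ((h1.union hfin).union hDγ).subset ?_
    intro ξ hξ
    by_cases h2 : ξ ∈ lft π FT
    · by_cases h3 : ξ < γ
      · exact Or.inr ⟨hξ, h3⟩
      · refine Or.inl (Or.inr ⟨hξ, ?_⟩)
        by_contra h4
        exact h3 (hγ (Or.inl ⟨h2, h4⟩))
    · exact Or.inl (Or.inl ⟨hξ, h2⟩)
  · apply hδT
    rw [hT]
    refine ⟨hδS, ?_⟩
    rw [htrace]
    -- `D δ` is almost disjoint from the image of `FT`
    have h1 : (Dset π δ ∩ lft π FT).Finite := by
      rw [← mk_eq_bot, ← mk_inf, ← mk_Fset, mk_lft, ← OrderIso.map_inf, mk_inf]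
      rw [show Fset π δ ∩ FT = ∅ from ?_]
      · rw [← bot_eq]
        exact map_bot π
      · ext x
        simp only [mem_inter_iff, FT, mem_iUnion, exists_prop, mem_empty_iff_false, iff_false,
          not_and, not_exists]
        intro hx δ' hδ' hx'
        have hne : δ ≠ δ' := fun h => hδT (h ▸ hδ')
        rcases lt_or_gt_of_ne hne with h | h
        · -- `δ < δ'`
          have h2 := (hTS hδ').1.F_sub δ h hx
          exact hx'.2 h2
        · have h2 := hcl.F_sub δ' h hx'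
          exact hx.2 h2
    refine (h1.union hDγ).subset ?_
    rintro ξ ⟨hξ, h2⟩
    by_cases h3 : ξ < γ
    · exact Or.inr ⟨hξ, h3⟩
    · left
      refine ⟨hξ, ?_⟩
      by_contra h4
      exact h3 (hγ (Or.inr ⟨h2, h4⟩))

/-- If both `π` and its inverse are induced by point maps modulo countable sets, then `π`
fixes the class of every initial segment given by a large enough closure point. -/
theorem fixes_initial [WellFoundedLT Ω] (hc : ∀ a : Ω, (Iio a).Countable)
    (hu : ¬ (univ : Set Ω).Countable) (hπ : CtblPres π)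
    (e : Ω → Ω) (he : ∀ A : Set Ω, CtEq (lft π A) (e ⁻¹' A))
    (e' : Ω → Ω) (he' : ∀ A : Set Ω, CtEq (lft π.symm A) (e' ⁻¹' A)) :
    ∃ g : Ω → Ω, ∃ γ : Ω, ∀ δ, γ < δ → (∀ β < δ, g β < δ) → π (mk (Iio δ)) = mk (Iio δ) := by
  obtain ⟨g, hg⟩ := exists_g hc hu hπ e
  obtain ⟨g', hg'⟩ := exists_g hc hu hπ.symm e'
  obtain ⟨γ, hγ⟩ := countable_bad hc hu e he
  obtain ⟨γ', hγ'⟩ := countable_bad hc hu e' he'
  refine ⟨fun β => max (g β) (g' β), max γ γ', fun δ hδ hcl => ?_⟩
  have h1 := hγ δ (lt_of_le_of_lt (le_max_left _ _) hδ)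
    (hg δ fun β hβ => lt_of_le_of_lt (le_max_left _ _) (hcl β hβ))
  have h2 := hγ' δ (lt_of_le_of_lt (le_max_right _ _) hδ)
    (hg' δ fun β hβ => lt_of_le_of_lt (le_max_right _ _) (hcl β hβ))
  have h3 : mk (Iio δ) ≤ π (mk (Iio δ)) := by
    rw [← mk_lft, mk_le_mk]; exact h1
  have h4 : mk (Iio δ) ≤ π.symm (mk (Iio δ)) := by
    rw [← mk_lft, mk_le_mk]; exact h2
  apply le_antisymm _ h3
  rwa [π.le_symm_apply] at h4

/-- Consequently `π` has a nontrivial fixed point. -/
theorem exists_fixed [WellFoundedLT Ω] (hc : ∀ a : Ω, (Iio a).Countable)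
    (hu : ¬ (univ : Set Ω).Countable) (hπ : CtblPres π)
    (e : Ω → Ω) (he : ∀ A : Set Ω, CtEq (lft π A) (e ⁻¹' A))
    (e' : Ω → Ω) (he' : ∀ A : Set Ω, CtEq (lft π.symm A) (e' ⁻¹' A)) :
    ¬ NoNontrivialFixedPoint π := by
  intro hno
  obtain ⟨g, γ, hg⟩ := fixes_initial hc hu hπ e he e' he'
  -- an infinite countable set
  have hinf : (univ : Set Ω).Infinite := fun h => hu h.countable
  obtain ⟨A, _, hAc, hA⟩ := Set.Infinite.exists_subset_countable_infinite hinf
  obtain ⟨γ', hγ'⟩ := exists_bound hc hu hAc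
  obtain ⟨δ, hδ, hcl⟩ := exists_closed hc hu g (max γ γ')
  rcases hno _ (hg δ (lt_of_le_of_lt (le_max_left _ _) hδ) hcl) with h | h
  · apply hA
    refine h.subset fun a ha => ?_
    exact lt_trans (hγ' ha) (lt_of_le_of_lt (le_max_right _ _) hδ)
  · apply hu
    rw [← union_compl_self (Iio δ)]
    exact (hc δ).union h.countable

end Order

end Pool.Agent.H87.PFinAlg
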