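import Pool.Agent.H87.PFin.Defs

namespace Pool.Agent.H87.PFinAlg

open Set PFin

variable {Ω : Type}

/-- A lift of a map on classes to a map on sets. -/
noncomputable def lft (π : PFin Ω ≃o PFin Ω) (A : Set Ω) : Set Ω := Quotient.out (π (mk A))

theorem mk_lft (π : PFin Ω ≃o PFin Ω) (A : Set Ω) : mk (lft π A) = π (mk A) :=
  Quotient.out_eq (s := finSetoid Ω) _

theorem mk_eq_bot {A : Set Ω} : mk A = ⊥ ↔ A.Finite := by
  rw [bot_eq, mk_eq_mk]; simp

variable (π : PFin Ω ≃o PFin Ω)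

theorem lft_diff_finite {A B : Set Ω} : (lft π A \ lft π B).Finite ↔ (A \ B).Finite := by
  rw [← mk_le_mk, ← mk_le_mk, mk_lft, mk_lft, π.le_iff_le]

theorem lft_finite {A : Set Ω} : (lft π A).Finite ↔ A.Finite := by
  rw [← mk_eq_bot, ← mk_eq_bot, mk_lft]
  exact map_eq_bot_iff π

theorem lft_infinite {A : Set Ω} : (lft π A).Infinite ↔ A.Infinite :=
  not_congr (lft_finite π)

theorem lft_inter_finite {A B : Set Ω} : (lft π A ∩ lft π B).Finite ↔ (A ∩ B).Finite := by
  rw [← mk_eq_bot, ← mk_eq_bot, ← mk_inf, ← mk_inf, mk_lft, mk_lft, ← OrderIso.map_inf]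
  exact map_eq_bot_iff π

theorem mk_lft_symm_lft (A : Set Ω) : mk (lft π.symm (lft π A)) = mk A := by
  rw [mk_lft, mk_lft, OrderIso.symm_apply_apply]

theorem mk_lft_lft_symm (A : Set Ω) : mk (lft π (lft π.symm A)) = mk A := by
  rw [mk_lft, mk_lft, OrderIso.apply_symm_apply]

/-- Countable sets are preserved. -/
def CtblPres (π : PFin Ω ≃o PFin Ω) : Prop := ∀ A : Set Ω, (lft π A).Countable ↔ A.Countable

theorem CardinalityPreserving.ctblPres {π : PFin Ω ≃o PFin Ω} (h : CardinalityPreserving π) :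
    CtblPres π := by
  intro A
  by_cases hA : A.Finite
  · exact ⟨fun _ => hA.countable, fun _ => ((lft_finite π).2 hA).countable⟩
  · have hA' : A.Infinite := hA
    have h1 := h A (lft π A) hA' ((lft_infinite π).2 hA') (mk_lft π A).symm
    rw [← Set.countable_coe_iff, ← Set.countable_coe_iff, ← Cardinal.mk_le_aleph0_iff,
      ← Cardinal.mk_le_aleph0_iff, h1]

theorem CtblPres.symm {π : PFin Ω ≃o PFin Ω} (h : CtblPres π) : CtblPres π.symm := by
  intro A
  rw [← h (lft π.symm A)]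
  have h1 := mk_eq_mk.1 (mk_lft_lft_symm π A)
  constructor
  · intro h2
    have : A ⊆ lft π (lft π.symm A) ∪ (A \ lft π (lft π.symm A)) := by
      intro x hx; by_cases hx' : x ∈ lft π (lft π.symm A)
      · exact Or.inl hx'
      · exact Or.inr ⟨hx, hx'⟩
    exact (h2.union h1.2.countable).mono this
  · intro h2
    have : lft π (lft π.symm A) ⊆ A ∪ (lft π (lft π.symm A) \ A) := by
      intro x hx; by_cases hx' : x ∈ A
      · exact Or.inl hx'
      · exact Or.inr ⟨hx, hx'⟩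
    exact (h2.union h1.1.countable).mono this

/-- Equality modulo countable sets. -/
def CtEq (A B : Set Ω) : Prop := (A \ B).Countable ∧ (B \ A).Countable

theorem CtEq.refl (A : Set Ω) : CtEq A A := by simp [CtEq]

theorem CtEq.symm {A B : Set Ω} (h : CtEq A B) : CtEq B A := ⟨h.2, h.1⟩

theorem CtEq.trans {A B C : Set Ω} (h1 : CtEq A B) (h2 : CtEq B C) : CtEq A C :=
  ⟨(h1.1.union h2.1).mono (by intro x hx; simp at hx ⊢; tauto),
    (h1.2.union h2.2).mono (by intro x hx; simp at hx ⊢; tauto)⟩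

theorem CtEq.compl {A B : Set Ω} (h : CtEq A B) : CtEq Aᶜ Bᶜ :=
  ⟨h.2.mono (by intro x hx; simp at hx ⊢; tauto), h.1.mono (by intro x hx; simp at hx ⊢; tauto)⟩

theorem CtEq.iUnion {A B : ℕ → Set Ω} (h : ∀ n, CtEq (A n) (B n)) :
    CtEq (⋃ n, A n) (⋃ n, B n) := by
  constructor
  · refine (Set.countable_iUnion fun n => (h n).1).mono ?_
    intro x hx
    simp only [mem_sdiff, mem_iUnion, not_exists] at hx ⊢
    obtain ⟨⟨n, hn⟩, h2⟩ := hx
    exact ⟨n, hn, h2 n⟩
  · refine (Set.countable_iUnion fun n => (h n).2).mono ?_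
    intro x hx
    simp only [mem_sdiff, mem_iUnion, not_exists] at hx ⊢
    obtain ⟨⟨n, hn⟩, h2⟩ := hx
    exact ⟨n, hn, h2 n⟩

theorem ctEq_of_mk_eq {A B : Set Ω} (h : mk A = mk B) : CtEq A B :=
  ⟨(mk_eq_mk.1 h).1.countable, (mk_eq_mk.1 h).2.countable⟩

theorem ctEq_lft_compl (A : Set Ω) : CtEq (lft π Aᶜ) (lft π A)ᶜ := by
  apply ctEq_of_mk_eq
  rw [mk_lft, ← mk_compl, ← mk_compl, mk_lft, map_compl']

theorem ctEq_lft_iUnion {π : PFin Ω ≃o PFin Ω} (h : CtblPres π) (A : ℕ → Set Ω) :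
    CtEq (lft π (⋃ n, A n)) (⋃ n, lft π (A n)) := by
  constructor
  · -- `Q = Φ A \ ⋃ Φ (A n)`
    set Q := lft π (⋃ n, A n) \ ⋃ n, lft π (A n) with hQ
    rw [← h.symm Q]
    have h1 : ∀ n, (lft π.symm Q ∩ A n).Finite := by
      intro n
      have h2 : (Q ∩ lft π (A n)).Finite := by
        convert Set.finite_empty (α := Ω)
        ext x
        simp only [hQ, mem_inter_iff, mem_sdiff, mem_iUnion, not_exists, mem_empty_iff_false,
          iff_false, not_and]
        exact fun h3 h4 => h3.2 n h4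
      have h3 := (lft_inter_finite π.symm).2 h2
      rw [← mk_eq_bot, ← mk_inf] at h3 ⊢
      rwa [mk_lft_symm_lft] at h3
    have h2 : (lft π.symm Q \ ⋃ n, A n).Finite := by
      have h3 : (Q \ lft π (⋃ n, A n)).Finite := by
        convert Set.finite_empty (α := Ω)
        ext x
        simp [hQ]
      have h4 := (lft_diff_finite π.symm).2 h3
      rw [← mk_le_mk] at h4 ⊢
      rwa [mk_lft_symm_lft] at h4
    refine ((Set.countable_iUnion fun n => (h1 n).countable).union h2.countable).mono ?_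
    intro x hx
    simp only [mem_union, mem_iUnion, mem_inter_iff, mem_sdiff, not_exists]
    by_cases hx' : ∃ n, x ∈ A n
    · obtain ⟨n, hn⟩ := hx'
      exact Or.inl ⟨n, hx, hn⟩
    · exact Or.inr ⟨hx, fun n hn => hx' ⟨n, hn⟩⟩
  · have h1 : ∀ n, (lft π (A n) \ lft π (⋃ n, A n)).Finite := by
      intro n
      rw [lft_diff_finite]
      convert Set.finite_empty (α := Ω)
      ext x
      simp
      exact fun h => ⟨n, h⟩
    refine (Set.countable_iUnion fun n => (h1 n).countable).mono ?_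
    intro x hx
    simp only [mem_sdiff, mem_iUnion] at hx ⊢
    obtain ⟨⟨n, hn⟩, h2⟩ := hx
    exact ⟨n, hn, h2⟩

end Pool.Agent.H87.PFinAlg
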