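import Pool.Agent.H87.PFin.Borel

namespace Pool.Agent.H87.PFinAlg

open Set PFin

/-! ### From a dominating family of size `≤ ℵ₁` to a set of size `ℵ₁` that is not a `Q`-set -/

/-- Points of Cantor space with finitely many values `true`. -/
def FinPts : Set Cantor := {a | {n | a n = true}.Finite}

theorem finPts_countable : FinPts.Countable := by
  have h1 : (univ : Set (Finset ℕ)).Countable := Set.countable_univ
  refine (h1.image fun s : Finset ℕ => (fun n => decide (n ∈ s) : Cantor)).mono ?_
  intro a ha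
  refine ⟨ha.toFinset, trivial, ?_⟩
  funext n
  simp only [Set.Finite.mem_toFinset, mem_ofPred_eq]
  cases h : a n <;> simp

/-- A compact set of Cantor space disjoint from `FinPts` is uniformly infinite. -/
theorem uniform_of_closed {K : Set Cantor} (hK : IsClosed K) (hF : K ∩ FinPts = ∅) (k : ℕ) :
    ∃ l, ∀ a ∈ K, ∃ i, k ≤ i ∧ i < l ∧ a i = true := by
  have hc : IsCompact K := hK.isCompact
  obtain ⟨l, hl⟩ := hc.elim_directed_cover
    (fun l : ℕ => {a : Cantor | ∃ i, k ≤ i ∧ i < l ∧ a i = true}) (by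
      intro l
      have : {a : Cantor | ∃ i, k ≤ i ∧ i < l ∧ a i = true} =
          ⋃ i ∈ {i | k ≤ i ∧ i < l}, {a : Cantor | a i = true} := by
        ext a; simp [and_assoc]
      rw [this]
      refine isOpen_biUnion fun i _ => ?_
      have h2 : {a : Cantor | a i = true} = (fun a : Cantor => a i) ⁻¹' {true} := by
        ext a; simp
      rw [h2]
      exact (isOpen_discrete _).preimage (continuous_apply i)) (by
      intro a ha
      have h1 : a ∉ FinPts := fun h => by
        have : a ∈ K ∩ FinPts := ⟨ha, h⟩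
        rw [hF] at this
        exact this
      have h2 : {n | a n = true}.Infinite := h1
      obtain ⟨i, hi, hki⟩ := h2.exists_gt k
      rw [mem_iUnion]
      exact ⟨i + 1, i, hki.le, Nat.lt_succ_self i, hi⟩) (by
      intro l l'
      refine ⟨max l l', ?_, ?_⟩
      · rintro a ⟨i, h1, h2, h3⟩
        exact ⟨i, h1, lt_of_lt_of_le h2 (le_max_left _ _), h3⟩
      · rintro a ⟨i, h1, h2, h3⟩
        exact ⟨i, h1, lt_of_lt_of_le h2 (le_max_right _ _), h3⟩)
  exact ⟨l, fun a ha => hl ha⟩

/-- Iterates of `n ↦ f n + n + 1` starting from `0`. -/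
def iter (f : ℕ → ℕ) : ℕ → ℕ
  | 0 => 0
  | n + 1 => f (iter f n) + iter f n + 1

theorem iter_strictMono (f : ℕ → ℕ) : StrictMono (iter f) :=
  strictMono_nat_of_lt_succ fun n => by simp only [iter]; omega

open Classical in
/-- The code of `f`. -/
noncomputable def code (f : ℕ → ℕ) : Cantor := fun n => decide (∃ j, iter f j = n)

/-- Sigma-closed sets. -/
def IsFSigma {α : Type} [TopologicalSpace α] (H : Set α) : Prop :=
  ∃ K : ℕ → Set α, (∀ n, IsClosed (K n)) ∧ H = ⋃ n, K n

theorem not_qset_of_dominating {I : Type} (f : I → ℕ → ℕ)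
    (hdom : ∀ g : ℕ → ℕ, ∃ i, ∃ N, ∀ n ≥ N, g n < f i n) (H : Set Cantor) (hH : IsFSigma H) :
    H ∩ (range (fun i => code (f i)) ∪ FinPts) ≠ range (fun i => code (f i)) := by
  obtain ⟨K, hK, rfl⟩ := hH
  intro heq
  have hKF : ∀ n, K n ∩ FinPts = ∅ := by
    intro n
    rw [eq_empty_iff_forall_notMem]
    rintro a ⟨h1, h2⟩
    have h3 : a ∈ (⋃ n, K n) ∩ (range (fun i => code (f i)) ∪ FinPts) :=
      ⟨mem_iUnion.2 ⟨n, h1⟩, Or.inr h2⟩
    rw [heq] at h3
    obtain ⟨i, rfl⟩ := h3
    have h4 : {n | code (f i) n = true} = range (iter (f i)) := by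
      ext n; simp [code]
    have h5 : {n | code (f i) n = true}.Finite := h2
    rw [h4] at h5
    exact (infinite_range_of_injective (iter_strictMono (f i)).injective) h5
  choose l hl using fun n => uniform_of_closed (hK n) (hKF n)
  -- a bound for all
  let g : ℕ → ℕ := fun k => ∑ n ∈ Finset.range (k + 1), l n (k + 1)
  obtain ⟨i, N, hN⟩ := hdom g
  have h1 : code (f i) ∈ ⋃ n, K n := by
    have : code (f i) ∈ (⋃ n, K n) ∩ (range (fun i => code (f i)) ∪ FinPts) := by
      rw [heq]; exact ⟨i, rfl⟩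
    exact this.1
  obtain ⟨n, hn⟩ := mem_iUnion.1 h1
  -- a large iterate
  let j := N + n
  have hj : j ≤ iter (f i) j := (iter_strictMono (f i)).le_apply
  obtain ⟨m, hm1, hm2, hm3⟩ := hl n (iter (f i) j + 1) _ hn
  simp only [code, decide_eq_true_eq] at hm3
  obtain ⟨j', rfl⟩ := hm3
  have h2 : j < j' := by
    by_contra h
    push Not at h
    have := (iter_strictMono (f i)).monotone h
    omega
  have h3 : iter (f i) (j + 1) ≤ iter (f i) j' := (iter_strictMono (f i)).monotone h2
  have h4 : g (iter (f i) j) < f i (iter (f i) j) := hN _ (by omega)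
  have h5 : l n (iter (f i) j + 1) ≤ g (iter (f i) j) := by
    show _ ≤ ∑ n ∈ Finset.range (iter (f i) j + 1), l n (iter (f i) j + 1)
    refine Finset.single_le_sum (f := fun n => l n (iter (f i) j + 1)) (fun _ _ => Nat.zero_le _) ?_
    rw [Finset.mem_range]
    omega
  simp only [iter] at h3
  omega

/-! ### A dominating family from an automorphism that is not cardinality-preserving -/

variable {Ω : Type}

/-- If an uncountable set is sent to a countable set, there is a dominating family indexed by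
`Ω`. -/
theorem exists_dominating (hΩ : Cardinal.mk Ω = Cardinal.aleph 1) (π : PFin Ω ≃o PFin Ω)
    (A : Set Ω) (hA : ¬ A.Countable) (hB : (lft π A).Countable) :
    ∃ f : Ω → ℕ → ℕ, ∀ g : ℕ → ℕ, ∃ i, ∃ N, ∀ n ≥ N, g n < f i n := by
  obtain ⟨_, hwf, hc⟩ := exists_order hΩ
  have hu := not_countable_univ hΩ
  -- an injection of `ℕ × Ω` into `A`
  have hAc : Cardinal.mk (ℕ × Ω) ≤ Cardinal.mk A := by
    have h1 : Cardinal.mk (ℕ × Ω) = Cardinal.aleph 1 := by
      rw [Cardinal.mk_prod, Cardinal.mk_nat, hΩ]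
      simp
    rw [h1, ← Cardinal.succ_aleph0, Order.succ_le_iff, ← not_le, Cardinal.mk_le_aleph0_iff,
      Set.countable_coe_iff]
    exact hA
  obtain ⟨ι⟩ := hAc
  have hιinj : Function.Injective fun p => (ι p : Ω) := fun p q h => ι.injective (Subtype.ext h)
  let col : ℕ → Set Ω := fun n => range fun β => (ι (n, β) : Ω)
  let tail : Ω → Set Ω := fun α => {ω | ∃ n β, α ≤ β ∧ (ι (n, β) : Ω) = ω}
  let L : ℕ → Set Ω := fun n => lft π (col n) \ ⋃ m ∈ Iio n, lft π (col m)
  have hcolsub : ∀ n, col n ⊆ A := by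
    rintro n _ ⟨β, rfl⟩; exact (ι (n, β)).2
  have hcoldisj : ∀ m n, m ≠ n → col m ∩ col n = ∅ := by
    intro m n hmn
    rw [eq_empty_iff_forall_notMem]
    rintro _ ⟨⟨β, rfl⟩, β', h⟩
    have := hιinj h
    simp only [Prod.mk.injEq] at this
    exact hmn this.1.symm
  -- `L n` is almost equal to the image of the column
  have hLfin : ∀ n, (lft π (col n) \ L n).Finite := by
    intro n
    have h1 : (⋃ m ∈ Iio n, lft π (col n) ∩ lft π (col m)).Finite := by
      refine (finite_Iio n).biUnion fun m hm => ?_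
      rw [lft_inter_finite, hcoldisj n m (ne_of_gt hm)]
      exact finite_empty
    refine h1.subset ?_
    intro x hx
    simp only [L, mem_sdiff, mem_iUnion, exists_prop, not_and, not_exists, not_forall,
      not_not] at hx
    obtain ⟨h2, h3⟩ := hx
    obtain ⟨m, hm, h4⟩ := h3 h2
    simp only [mem_iUnion, exists_prop]
    exact ⟨m, hm, h2, h4⟩
  have hLdisj : ∀ m n, m ≠ n → L m ∩ L n = ∅ := by
    have key : ∀ m n, m < n → L m ∩ L n = ∅ := by
      intro m n hmn
      rw [eq_empty_iff_forall_notMem]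
      rintro x ⟨h1, h2⟩
      apply h2.2
      simp only [mem_iUnion, exists_prop]
      exact ⟨m, hmn, h1.1⟩
    intro m n hmn
    rcases lt_or_gt_of_ne hmn with h | h
    · exact key m n h
    · rw [inter_comm]; exact key n m h
  -- a coding of the countable set
  obtain ⟨b, hb⟩ : ∃ b : Ω → ℕ, InjOn b (lft π A) := Set.countable_iff_exists_injOn.1 hB
  have hLsub : ∀ n, (L n \ lft π A).Finite := by
    intro n
    have h1 : (lft π (col n) \ lft π A).Finite := by
      rw [lft_diff_finite]
      refine finite_empty.subset ?_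
      intro x hx
      exact hx.2 (hcolsub n hx.1)
    exact h1.subset fun x hx => ⟨hx.1.1, hx.2⟩
  -- the tail meets every column in an infinite set
  have hmeet : ∀ α n, (lft π (tail α) ∩ (L n ∩ lft π A)).Infinite := by
    intro α n
    have h1 : (tail α ∩ col n).Infinite := by
      have h2 : (Ici α : Set Ω).Infinite := by
        intro h
        apply hu
        rw [← Iio_union_Ici (a := α)]
        exact (hc α).union h.countable
      refine (h2.image (f := fun β => (ι (n, β) : Ω)) ?_).mono ?_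
      · intro β _ β' _ h
        have := hιinj h
        simpa using this
      · rintro _ ⟨β, hβ, rfl⟩
        exact ⟨⟨n, β, hβ, rfl⟩, ⟨β, rfl⟩⟩
    have h2 : (lft π (tail α) ∩ lft π (col n)).Infinite := by
      intro h
      exact h1 ((lft_inter_finite π).1 h)
    intro h
    apply h2
    refine ((h.union (hLfin n)).union (hLsub n)).subset ?_
    rintro x ⟨h3, h4⟩
    by_cases h5 : x ∈ L n
    · by_cases h6 : x ∈ lft π A
      · exact Or.inl (Or.inl ⟨h3, h5, h6⟩)
      · exact Or.inr ⟨h5, h6⟩
    · exact Or.inl (Or.inr ⟨h4, h5⟩)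
  -- the functions
  have hne : ∀ α n, (b '' (lft π (tail α) ∩ (L n ∩ lft π A))).Nonempty :=
    fun α n => (hmeet α n).nonempty.image b
  refine ⟨fun α n => sInf (b '' (lft π (tail α) ∩ (L n ∩ lft π A))), fun g => ?_⟩
  -- the set below `g`
  let G : Set Ω := {y | y ∈ lft π A ∧ ∃ n, y ∈ L n ∧ b y ≤ g n}
  have hGL : ∀ n, (G ∩ L n).Finite := by
    intro n
    have h1 : (b '' (G ∩ L n)).Finite := by
      refine (finite_Iic (g n)).subset ?_
      rintro _ ⟨y, ⟨⟨_, m, h3, h4⟩, h5⟩, rfl⟩
      have : m = n := by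
        by_contra h
        have h6 := hLdisj m n h
        have h7 : y ∈ L m ∩ L n := ⟨h3, h5⟩
        rw [h6] at h7
        exact h7
      rw [← this]
      exact h4
    exact h1.of_finite_image (hb.mono fun y hy => hy.1.1)
  have hZ : ∀ n, (lft π.symm G ∩ col n).Finite := by
    intro n
    have h1 : (G ∩ lft π (col n)).Finite := by
      refine ((hGL n).union (hLfin n)).subset ?_
      rintro x ⟨h2, h3⟩
      by_cases h4 : x ∈ L n
      · exact Or.inl ⟨h2, h4⟩
      · exact Or.inr ⟨h3, h4⟩
    have h3 := (lft_inter_finite π.symm).2 h1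
    rw [← mk_eq_bot, ← mk_inf] at h3 ⊢
    rwa [mk_lft_symm_lft] at h3
  -- a bound on the second coordinates
  obtain ⟨α, hα⟩ := exists_bound hc hu
    (A := ⋃ n, {β | (ι (n, β) : Ω) ∈ lft π.symm G}) (by
      refine countable_iUnion fun n => ?_
      have h1 : {β | (ι (n, β) : Ω) ∈ lft π.symm G} =
          (fun β => (ι (n, β) : Ω)) ⁻¹' (lft π.symm G ∩ col n) := by
        ext β
        simp [col]
      rw [h1]
      refine ((hZ n).preimage ?_).countable
      intro β _ β' _ h
      have := hιinj h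
      simpa using this)
  have hdisj : lft π.symm G ∩ tail α = ∅ := by
    rw [eq_empty_iff_forall_notMem]
    rintro _ ⟨h1, n, β, h2, rfl⟩
    have h3 : β ∈ Iio α := hα (mem_iUnion.2 ⟨n, h1⟩)
    exact absurd h2 (not_le.2 h3)
  have hfin : (G ∩ lft π (tail α)).Finite := by
    have h1 : (lft π.symm G ∩ tail α).Finite := by rw [hdisj]; exact finite_empty
    have h2 := (lft_inter_finite π).2 h1
    rw [← mk_eq_bot, ← mk_inf] at h2 ⊢
    rwa [mk_lft_lft_symm] at h2
  -- only finitely many columns are concerned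
  have hfin2 : {n | (G ∩ lft π (tail α) ∩ L n).Nonempty}.Finite := by
    have h1 : ∀ y ∈ G ∩ lft π (tail α), {n | y ∈ L n}.Finite := by
      intro y _
      refine Set.Subsingleton.finite ?_
      intro m hm n hn
      by_contra h
      have h6 := hLdisj m n h
      have h7 : y ∈ L m ∩ L n := ⟨hm, hn⟩
      rw [h6] at h7
      exact h7
    refine (hfin.biUnion h1).subset ?_
    rintro n ⟨y, hy, h2⟩
    simp only [mem_iUnion, exists_prop]
    exact ⟨y, hy, h2⟩
  obtain ⟨N, hN⟩ := hfin2.bddAbove
  refine ⟨α, N + 1, fun n hn => ?_⟩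
  by_contra hcon
  push Not at hcon
  obtain ⟨y, ⟨h1, h2, h3⟩, h4⟩ := Nat.sInf_mem (hne α n)
  have h5 : n ≤ N := by
    apply hN
    refine ⟨y, ⟨⟨h3, n, h2, ?_⟩, h1⟩, h2⟩
    rw [h4]
    exact hcon
  omega

end Pool.Agent.H87.PFinAlg
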